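import Pool.Agent.H45.EGH.S3

/-!
# EGH: E3L, minors of syzygies do not vanish
-/

set_option autoImplicit false

namespace Pool.EGH

open MvPolynomial

namespace E3L

variable {K : Type} [Field K]

/-- Elements of degree zero are scalars. -/
theorem gp_zero_mul_le {N : ℕ} (Q : Ideal (PR K N)) (V : Submodule K (PR K N ⧸ Q)) :
    gp Q 0 * V ≤ V := by
  rw [Submodule.mul_le]
  intro m hm n hn
  obtain ⟨f, hf, rfl⟩ := Submodule.mem_map.mp hm
  have h0 : f.IsHomogeneous 0 := hf
  have h1 : f.totalDegree = 0 := Nat.le_zero.mp h0.totalDegree_le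
  obtain ⟨a, rfl⟩ : ∃ a : K, f = MvPolynomial.C a := ⟨_, totalDegree_eq_zero_iff_eq_C.mp h1⟩
  have h2 : ((Ideal.Quotient.mkₐ K Q).toLinearMap (MvPolynomial.C a)) * n = a • n := by
    obtain ⟨g, rfl⟩ := Ideal.Quotient.mk_surjective n
    change Ideal.Quotient.mk Q (MvPolynomial.C a) * Ideal.Quotient.mk Q g = _
    rw [← map_mul, C_mul']
    rfl
  rw [h2]
  exact V.smul_mem _ hn

/-- The lifting of elements of degree one. -/
theorem exists_section {N : ℕ} (Q : Ideal (PR K N)) :
    ∃ σ : ↥(gp Q 1) →ₗ[K] ↥(fm K N 1), ∀ y : gp Q 1,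
      Ideal.Quotient.mk Q (σ y : PR K N) = (y : PR K N ⧸ Q) := by
  let π : ↥(fm K N 1) →ₗ[K] ↥(gp Q 1) :=
    ((Ideal.Quotient.mkₐ K Q).toLinearMap.restrict (p := fm K N 1) (q := gp Q 1)
      (fun f hf => Submodule.mem_map_of_mem hf))
  have hπ : Function.Surjective π := by
    rintro ⟨y, hy⟩
    obtain ⟨f, hf, rfl⟩ := Submodule.mem_map.mp hy
    exact ⟨⟨f, hf⟩, rfl⟩
  obtain ⟨σ, hσ⟩ := LinearMap.exists_rightInverse_of_surjective π (LinearMap.range_eq_top.mpr hπ)
  refine ⟨σ, fun y => ?_⟩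
  have := LinearMap.congr_fun hσ y
  exact congrArg Subtype.val this

/-- Syzygies of two independent linear forms. -/
theorem syz {N : ℕ} (hLIN : LINStmt) (L : Submodule K (PR K N)) (hL : L ≤ fm K N 1)
    (X X' l m : PR K N) (hX : X ∈ fm K N 1) (hX' : X' ∈ fm K N 1) (hl : l ∈ fm K N 1)
    (hm : m ∈ fm K N 1) (hind : ∀ a b : K, a • X + b • X' ∈ L → a = 0 ∧ b = 0)
    (h : l * X + m * X' ∈ Ideal.span (L : Set (PR K N))) :
    ∃ c : K, l - c • X' ∈ L ∧ m + c • X ∈ L := by
  have hXL : X ∉ L := fun h0 => one_ne_zero (hind 1 0 (by simpa using h0)).1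
  let L' : Submodule K (PR K N) := L ⊔ K ∙ X
  have hL' : L' ≤ fm K N 1 := by
    refine sup_le hL ?_
    rw [Submodule.span_singleton_le_iff_mem]
    exact hX
  have hmem : ∀ z ∈ L', ∃ y ∈ L, ∃ c : K, z = y + c • X := by
    intro z hz
    obtain ⟨y, hy, w, hw, rfl⟩ := Submodule.mem_sup.mp hz
    obtain ⟨c, rfl⟩ := Submodule.mem_span_singleton.mp hw
    exact ⟨y, hy, c, rfl⟩
  have hX'L : X' ∉ L' := by
    intro h0
    obtain ⟨y, hy, c, hc⟩ := hmem _ h0
    have := (hind (-c) 1 (by rw [hc]; convert hy using 1; rw [one_smul, neg_smul]; ring)).2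
    exact one_ne_zero this
  obtain ⟨-, hlin', hreg'⟩ := hLIN K N L' hL'
  obtain ⟨-, hlin, hreg⟩ := hLIN K N L hL
  have hle : Ideal.span (L : Set (PR K N)) ≤ Ideal.span (L' : Set (PR K N)) :=
    Ideal.span_mono (fun z hz => Submodule.mem_sup_left hz)
  have hXm : X ∈ Ideal.span (L' : Set (PR K N)) :=
    Ideal.subset_span (Submodule.mem_sup_right (Submodule.mem_span_singleton_self X))
  have h1 : X' * m ∈ Ideal.span (L' : Set (PR K N)) := by
    have h2 : X' * m = (l * X + m * X') - l * X := by ring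
    rw [h2]
    exact Ideal.sub_mem _ (hle h) (Ideal.mul_mem_left _ _ hXm)
  have h3 : m ∈ L' := hlin' m hm (hreg' X' hX' hX'L m h1)
  obtain ⟨y, hy, c, hc⟩ := hmem _ h3
  refine ⟨-c, ?_, ?_⟩
  · have h4 : X * (l - (-c) • X') ∈ Ideal.span (L : Set (PR K N)) := by
      have h5 : X * (l - (-c) • X') = (l * X + m * X') - X' * y := by
        rw [hc, neg_smul, sub_neg_eq_add, mul_add, mul_smul_comm, add_mul, smul_mul_assoc]
        ring
      rw [h5]
      exact Ideal.sub_mem _ h (Ideal.mul_mem_left _ _ (Ideal.subset_span hy))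
    refine hlin _ ?_ (hreg X hX hXL _ h4)
    exact Submodule.sub_mem _ hl (Submodule.smul_mem _ _ hX')
  · rw [hc, neg_smul, add_neg_cancel_right]
    exact hy

end E3L

open E3L in
/-- E3L. -/
theorem t_e3l (hQE3 : QE3Stmt) (hLSY : LSYStmt) (hLIN : LINStmt) : E3LStmt := by
  intro K _ _ Q C x x' M hCI hC hC3 hC12 hx hx' hind hM hM3 hMC hq hmin
  obtain ⟨hJ, hJf⟩ := hQE3 K Q C hCI hC hC3 hC12
  have hJ1 : ∀ f ∈ fm K 6 1, f ∈ upI Q C ↔ Ideal.Quotient.mk Q f ∈ C := by
    intro f hf
    constructor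
    · intro h
      exact gp_zero_mul_le Q C ((hJf 0 f hf).mp h)
    · intro h
      exact Ideal.subset_span h
  let L : Submodule K (PR K 6) := fm K 6 1 ⊓ (upI Q C).restrictScalars K
  have hL : L ≤ fm K 6 1 := inf_le_left
  have hLJ : ∀ l ∈ fm K 6 1, l ∈ upI Q C ↔ l ∈ L := fun l hl =>
    ⟨fun h => ⟨hl, h⟩, fun h => h.2⟩
  have hLC : ∀ l ∈ fm K 6 1, l ∈ L ↔ Ideal.Quotient.mk Q l ∈ C := fun l hl =>
    ⟨fun h => (hJ1 l hl).mp h.2, fun h => ⟨hl, (hJ1 l hl).mpr h⟩⟩
  obtain ⟨σ, hσ⟩ := exists_section Q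
  set X : PR K 6 := (σ ⟨x, hx⟩ : PR K 6) with hXdef
  set X' : PR K 6 := (σ ⟨x', hx'⟩ : PR K 6) with hX'def
  have hX : X ∈ fm K 6 1 := (σ ⟨x, hx⟩).2
  have hX' : X' ∈ fm K 6 1 := (σ ⟨x', hx'⟩).2
  have hXx : Ideal.Quotient.mk Q X = x := hσ ⟨x, hx⟩
  have hXx' : Ideal.Quotient.mk Q X' = x' := hσ ⟨x', hx'⟩
  have hsm : ∀ (a : K) (f : PR K 6), Ideal.Quotient.mk Q (a • f) = a • Ideal.Quotient.mk Q f :=
    fun a f => rfl
  have hindL : ∀ a b : K, a • X + b • X' ∈ L → a = 0 ∧ b = 0 := by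
    intro a b h
    apply hind a b
    have := (hLC _ (hL h)).mp h
    rwa [map_add, hsm, hsm, hXx, hXx'] at this
  have hXL : X ∉ L := fun h0 => one_ne_zero (hindL 1 0 (by simpa using h0)).1
  -- the map
  let l : M →ₗ[K] PR K 6 := (fm K 6 1).subtype ∘ₗ σ ∘ₗ
    (LinearMap.fst K (PR K 6 ⧸ Q) (PR K 6 ⧸ Q)).restrict (fun p hp => (hM p hp).1)
  let m : M →ₗ[K] PR K 6 := (fm K 6 1).subtype ∘ₗ σ ∘ₗ
    (LinearMap.snd K (PR K 6 ⧸ Q) (PR K 6 ⧸ Q)).restrict (fun p hp => (hM p hp).2)
  have hl : ∀ p, l p ∈ fm K 6 1 := fun p => (σ _).2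
  have hm : ∀ p, m p ∈ fm K 6 1 := fun p => (σ _).2
  have hl1 : ∀ p : M, Ideal.Quotient.mk Q (l p) = p.1.1 := fun p => hσ _
  have hm1 : ∀ p : M, Ideal.Quotient.mk Q (m p) = p.1.2 := fun p => hσ _
  let q : M →ₗ[K] PR K 6 := LinearMap.mulRight K X ∘ₗ l + LinearMap.mulRight K X' ∘ₗ m
  have hqd : ∀ p, q p = l p * X + m p * X' := fun p => rfl
  have hq2 : ∀ p, q p ∈ fm K 6 2 := fun p =>
    Submodule.add_mem _ (IsHomogeneous.mul (hl p) hX) (IsHomogeneous.mul (hm p) hX')
  have hqJ : ∀ p, q p ∈ upI Q C := by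
    intro p
    rw [hJf 1 _ (hq2 p), hqd, map_add, map_mul, map_mul, hXx, hXx', hl1, hm1]
    exact hq p.1 p.2
  let SL : Ideal (PR K 6) := Ideal.span (L : Set (PR K 6))
  let Φ : M →ₗ[K] (PR K 6 ⧸ SL) := (Ideal.Quotient.mkₐ K SL).toLinearMap ∘ₗ q
  have hΦ : ∀ p, Φ p = 0 ↔ q p ∈ SL := fun p => Ideal.Quotient.eq_zero_iff_mem
  have hker : ∀ p, Φ p = 0 → ∃ c : K, l p - c • X' ∈ L ∧ m p + c • X ∈ L := fun p hp =>
    syz hLIN L hL X X' (l p) (m p) hX hX' (hl p) (hm p) hindL ((hΦ p).mp hp)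
  have hker0 : ∀ p, l p ∈ L → m p ∈ L → p = 0 := by
    intro p h1 h2
    have h3 := (hLC _ (hl p)).mp h1
    have h4 := (hLC _ (hm p)).mp h2
    rw [hl1] at h3
    rw [hm1] at h4
    exact Subtype.ext (hMC p.1 p.2 h3 h4)
  haveI : Module.Finite K M := Module.finite_of_finrank_pos (by omega)
  have hker1 : Module.finrank K (LinearMap.ker Φ) ≤ 1 := by
    by_cases h0 : ∀ w : LinearMap.ker Φ, w = 0
    · exact finrank_le_one 0 (fun w => ⟨0, by rw [h0 w, smul_zero]⟩)
    · push Not at h0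
      obtain ⟨v, hv⟩ := h0
      obtain ⟨c, hc1, hc2⟩ := hker v.1 v.2
      have hc0 : c ≠ 0 := by
        rintro rfl
        apply hv
        rw [zero_smul, sub_zero] at hc1
        rw [zero_smul, add_zero] at hc2
        exact Subtype.ext (hker0 _ hc1 hc2)
      refine finrank_le_one v (fun w => ?_)
      obtain ⟨d, hd1, hd2⟩ := hker w.1 w.2
      refine ⟨d / c, ?_⟩
      apply Subtype.ext
      rw [← sub_eq_zero]
      have h5 : ((d / c) • v.1 - w.1 : M) = 0 := by
        apply hker0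
        · have h6 : l ((d / c) • v.1 - w.1) =
              (d / c) • (l v.1 - c • X') - (l w.1 - d • X') := by
            rw [map_sub, map_smul, smul_sub, smul_smul, div_mul_cancel₀ _ hc0]
            abel
          rw [h6]
          exact L.sub_mem (L.smul_mem _ hc1) hd1
        · have h6 : m ((d / c) • v.1 - w.1) =
              (d / c) • (m v.1 + c • X) - (m w.1 + d • X) := by
            rw [map_sub, map_smul, smul_add, smul_smul, div_mul_cancel₀ _ hc0]
            abel
          rw [h6]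
          exact L.sub_mem (L.smul_mem _ hc2) hd2
      exact h5
  have hrk := LinearMap.finrank_range_add_finrank_ker Φ
  have hrange : 1 < Module.finrank K (LinearMap.range Φ) := by omega
  obtain ⟨y, hy0⟩ : ∃ y : LinearMap.range Φ, y ≠ 0 := by
    haveI : Nontrivial (LinearMap.range Φ) := Module.nontrivial_of_finrank_pos (R := K) (by omega)
    exact exists_ne 0
  obtain ⟨z, hyz⟩ := exists_linearIndependent_pair_of_one_lt_finrank hrange hy0
  obtain ⟨⟨_, p, rfl⟩, hp⟩ : ∃ y' : LinearMap.range Φ, y' = y := ⟨y, rfl⟩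
  obtain ⟨⟨_, p', rfl⟩, hp'⟩ : ∃ y' : LinearMap.range Φ, y' = z := ⟨z, rfl⟩
  rw [LinearIndependent.pair_iff] at hyz
  have hI : ∀ a b : K, a • q p + b • q p' ∈ SL → a = 0 ∧ b = 0 := by
    intro a b h
    apply hyz a b
    rw [← hp, ← hp']
    apply Subtype.ext
    change a • Φ p + b • Φ p' = 0
    rw [← map_smul, ← map_smul, ← map_add, hΦ, map_add, map_smul, map_smul]
    exact h
  have hd2 : l p * m p' - l p' * m p ∈ fm K 6 2 :=
    Submodule.sub_mem _ (IsHomogeneous.mul (hl p) (hm p')) (IsHomogeneous.mul (hl p') (hm p))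
  have hdJ : l p * m p' - l p' * m p ∈ upI Q C := by
    rw [hJf 1 _ hd2, map_sub, map_mul, map_mul, hl1, hm1, hl1, hm1]
    exact hmin p.1 p.2 p'.1 p'.2
  set δ : PR K 6 := l p * m p' - l p' * m p with hδ
  have e1 : X * δ = m p' * q p - m p * q p' := by rw [hδ, hqd, hqd]; ring
  have e2 : X' * δ = l p * q p' - l p' * q p := by rw [hδ, hqd, hqd]; ring
  by_cases hcase : ∃ b c : K, δ - b • q p - c • q p' ∈ SL
  · obtain ⟨b, c, hbc⟩ := hcase
    have h1 := hLSY K 6 3 3 (upI Q C) L hJ hL hLJ 2 ![q p, q p']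
      ![b • X - m p', c • X + m p] (by
        intro i
        fin_cases i
        · exact ⟨hq2 p, hqJ p⟩
        · exact ⟨hq2 p', hqJ p'⟩) (by
        intro a ha
        rw [Fin.sum_univ_two] at ha
        obtain ⟨h0, h1⟩ := hI (a 0) (a 1) ha
        funext i
        fin_cases i
        · exact h0
        · exact h1) (by
        intro i
        fin_cases i
        · exact Submodule.sub_mem _ (Submodule.smul_mem _ _ hX) (hm p')
        · exact Submodule.add_mem _ (Submodule.smul_mem _ _ hX) (hm p)) (by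
        rw [Fin.sum_univ_two]
        change (b • X - m p') * q p + (c • X + m p) * q p' ∈ SL
        have : (b • X - m p') * q p + (c • X + m p) * q p' =
            -(X * (δ - b • q p - c • q p')) := by
          rw [mul_sub, mul_sub, e1, mul_smul_comm, mul_smul_comm, sub_mul, add_mul,
            smul_mul_assoc, smul_mul_assoc]
          ring
        rw [this]
        exact SL.neg_mem (SL.mul_mem_left _ hbc))
    have h2 := hLSY K 6 3 3 (upI Q C) L hJ hL hLJ 2 ![q p, q p']
      ![b • X' + l p', c • X' - l p] (by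
        intro i
        fin_cases i
        · exact ⟨hq2 p, hqJ p⟩
        · exact ⟨hq2 p', hqJ p'⟩) (by
        intro a ha
        rw [Fin.sum_univ_two] at ha
        obtain ⟨h0, h1⟩ := hI (a 0) (a 1) ha
        funext i
        fin_cases i
        · exact h0
        · exact h1) (by
        intro i
        fin_cases i
        · exact Submodule.add_mem _ (Submodule.smul_mem _ _ hX') (hl p')
        · exact Submodule.sub_mem _ (Submodule.smul_mem _ _ hX') (hl p)) (by
        rw [Fin.sum_univ_two]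
        change (b • X' + l p') * q p + (c • X' - l p) * q p' ∈ SL
        have : (b • X' + l p') * q p + (c • X' - l p) * q p' =
            -(X' * (δ - b • q p - c • q p')) := by
          rw [mul_sub, mul_sub, e2, mul_smul_comm, mul_smul_comm, sub_mul, add_mul,
            smul_mul_assoc, smul_mul_assoc]
          ring
        rw [this]
        exact SL.neg_mem (SL.mul_mem_left _ hbc))
    have h3 : c • X + m p ∈ L := h1 1
    have h4 : c • X' - l p ∈ L := h2 1
    have h5 : q p ∈ SL := by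
      have : q p = X' * (c • X + m p) - X * (c • X' - l p) := by
        rw [hqd, mul_add, mul_sub, mul_smul_comm, mul_smul_comm]
        ring
      rw [this]
      exact SL.sub_mem (SL.mul_mem_left _ (Ideal.subset_span h3))
        (SL.mul_mem_left _ (Ideal.subset_span h4))
    have := (hI 1 0 (by simpa using h5)).1
    exact one_ne_zero this
  · push Not at hcase
    have h1 := hLSY K 6 3 3 (upI Q C) L hJ hL hLJ 3 ![δ, q p, q p']
      ![X, - m p', m p] (by
        intro i
        fin_cases i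
        · exact ⟨hd2, hdJ⟩
        · exact ⟨hq2 p, hqJ p⟩
        · exact ⟨hq2 p', hqJ p'⟩) (by
        intro a ha
        rw [Fin.sum_univ_three] at ha
        have ha' : a 0 • δ + a 1 • q p + a 2 • q p' ∈ SL := ha
        have h0 : a 0 = 0 := by
          by_contra hne
          apply hcase (-(a 0)⁻¹ * a 1) (-(a 0)⁻¹ * a 2)
          have : δ - (-(a 0)⁻¹ * a 1) • q p - (-(a 0)⁻¹ * a 2) • q p' =
              MvPolynomial.C (a 0)⁻¹ * (a 0 • δ + a 1 • q p + a 2 • q p') := by
            simp only [MvPolynomial.C_mul', smul_add, smul_smul, inv_mul_cancel₀ hne, one_smul,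
              neg_mul, neg_smul, sub_neg_eq_add]
          rw [this]
          exact SL.mul_mem_left _ ha'
        rw [h0, zero_smul, zero_add] at ha'
        obtain ⟨h1, h2⟩ := hI (a 1) (a 2) ha'
        funext i
        fin_cases i
        · exact h0
        · exact h1
        · exact h2) (by
        intro i
        fin_cases i
        · exact hX
        · exact Submodule.neg_mem _ (hm p')
        · exact hm p) (by
        rw [Fin.sum_univ_three]
        change X * δ + (- m p') * q p + m p * q p' ∈ SL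
        have : X * δ + (- m p') * q p + m p * q p' = 0 := by
          rw [e1]
          ring
        rw [this]
        exact SL.zero_mem)
    exact hXL (h1 0)

end Pool.EGH
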