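import Pool.Agent.H45.EGH.S3

/-!
# EGH: KC6, small subspaces of degree 2 with an element killed by a linear form
-/

set_option autoImplicit false

namespace Pool.EGH

open MvPolynomial

/-- KC6. -/
theorem t_kc6 (hKIU : KIUStmt) (hGR1 : GR1Stmt) (hV33 : V33Stmt) (hRNK : RNKStmt)
    (hGPM : GPMStmt) : KC6Stmt := by
  intro K _ _ N Q U hCI hU hKF hU4
  haveI : Infinite K := IsAlgClosed.instInfinite
  unfold KF at hKF
  push Not at hKF
  obtain ⟨l, hl, v, hv, hlv, hl0, hv0⟩ := hKF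
  obtain ⟨hfin, hmul, -, -⟩ := hGPM K N Q
  haveI := hfin 2
  haveI : Module.Finite K U := Submodule.finiteDimensional_of_le hU
  have hkrU : kr l U ≤ U := inf_le_left
  haveI : Module.Finite K (kr l U) := Submodule.finiteDimensional_of_le hkrU
  obtain ⟨hr1, hr2⟩ := hRNK K N 2 Q l U hU
  have hvk : v ∈ kr l U := ⟨hv, LinearMap.mem_ker.mpr hlv⟩
  have hj1 : 1 ≤ Module.finrank K (kr l U) := by
    haveI : Nontrivial (kr l U) := ⟨⟨⟨v, hvk⟩, 0, fun h => hv0 (congrArg Subtype.val h)⟩⟩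
    exact Module.finrank_pos
  obtain ⟨Q', V', hCI', hV', hf', hd'⟩ := hKIU K N 5 1 Q l (kr l U) hCI hl hl0
    (hkrU.trans hU) (fun w hw => LinearMap.mem_ker.mp hw.2)
  have hg := hGR1 K N 5 Q' hCI' (by norm_num) V' hV'
  rw [hf', hd'] at hg
  have hml : ml l U ≤ gp Q 3 := by
    have h3 : gp Q 1 * gp Q 2 = gp Q 3 := hmul 1 2
    rw [← h3]
    rintro _ ⟨u, hu, rfl⟩
    exact Submodule.mul_mem_mul hl (hU hu)
  obtain ⟨h31, h32, h33⟩ := hV33 K N Q (ml l U) hCI hml
  set j := Module.finrank K U with hj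
  set j1 := Module.finrank K (kr l U) with hj1'
  set j2 := Module.finrank K (ml l U) with hj2
  have hc : (5 : ℕ).choose 2 = 10 := rfl
  rw [hc] at hg
  have c1 : (5 - 1).choose 2 = 6 := rfl
  have c2 : (5 - 2).choose 2 = 3 := rfl
  have c3 : (5 - 3).choose 2 = 1 := rfl
  have c4 : (5 - 4).choose 2 = 0 := rfl
  have b14 : b2 (15 - 1) = 16 := rfl
  have b13 : b2 (15 - 2) = 13 := rfl
  have b12 : b2 (15 - 3) = 11 := rfl
  have b11 : b2 (15 - 4) = 10 := rfl
  have hj4 : 1 ≤ j := by omega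
  obtain h | h | h | h : j = 1 ∨ j = 2 ∨ j = 3 ∨ j = 4 := by omega
  · rw [h, b14]
    have : j1 = 1 := by omega
    rw [this, c1] at hg
    omega
  · rw [h, b13]
    obtain h1 | h1 : j1 = 1 ∨ j1 = 2 := by omega
    · rw [h1, c1] at hg
      have := h31 (by omega)
      omega
    · rw [h1, c2] at hg
      omega
  · rw [h, b12]
    obtain h1 | h1 | h1 : j1 = 1 ∨ j1 = 2 ∨ j1 = 3 := by omega
    · rw [h1, c1] at hg
      have := h32 (by omega)
      omega
    · rw [h1, c2] at hg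
      have := h31 (by omega)
      omega
    · rw [h1, c3] at hg
      omega
  · rw [h, b11]
    obtain h1 | h1 | h1 | h1 : j1 = 1 ∨ j1 = 2 ∨ j1 = 3 ∨ j1 = 4 := by omega
    · rw [h1, c1] at hg
      have := h33 (by omega)
      omega
    · rw [h1, c2] at hg
      have := h32 (by omega)
      omega
    · rw [h1, c3] at hg
      have := h31 (by omega)
      omega
    · rw [h1, c4] at hg
      omega

end Pool.EGH
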